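import Mathlib
import Pool.Agent.U346.Inv.Fin

/-!
# MP_ca7eb7_al, Q1: every element of `SU(n)`, `n ≥ 3`, is a product of four involutions of `SU(n)`

For `n` not congruent to `2` modulo `4` a diagonal matrix is the product of two diagonal matrices
whose entries are paired by conjugation in a suitable way. For `n = 4 k + 2`: let `l`, `m` be two
eigenvalues of maximal distance and `D` the product of `2 k` of the others, chosen so that
`|D - D'| ≤ |l - m|` where `D'` is the product of the remaining `2 k` (a greedy choice of one
element in each of `2 k` pairs). Replace `(l, m)` by `(η D⁻¹, η D l m)`, `η = 1` or `-1`; the partial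
products of the new sequence give diagonal `X`, `Y`, where `X` has the eigenvalue `η` twice and `Y`
the eigenvalue `1`, so that both are products of two involutions. Conjugating `Y` by a rotation in the
plane of the two replaced coordinates changes the eigenvalues of `X Y` to `l`, `m` for a suitable
angle and sign.
-/

namespace Pool.Agent.Results.MP_ca7eb7_al.FourInvolutions

/-- **Q1, yes**: for every `n ≥ 3`, every element of `SU(n)` is a product of four involutions of
`SU(n)`. -/
theorem result : ∀ n : ℕ, 3 ≤ n → ∀ A ∈ Matrix.specialUnitaryGroup (Fin n) ℂ,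
    ∃ g : Fin 4 → Matrix (Fin n) (Fin n) ℂ,
      (∀ i, g i ∈ Matrix.specialUnitaryGroup (Fin n) ℂ ∧ g i * g i = 1) ∧
        A = g 0 * g 1 * g 2 * g 3 := by
  intro n hn A hA
  obtain ⟨I1, I2, I3, I4, h1, h2, h3, h4, h⟩ := Pool.Agent.U346.Inv.four_all hn hA
  refine ⟨![I1, I2, I3, I4], ?_, ?_⟩
  · intro i
    fin_cases i
    · exact h1
    · exact h2
    · exact h3
    · exact h4
  · exact h

end Pool.Agent.Results.MP_ca7eb7_al.FourInvolutions
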